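import Mathlib

/-!
# Induction principle for `Ext` (enough projectives), naturality and functoriality of
`Ext.mapExactFunctor` (MP_388894)
-/

set_option autoImplicit false

universe w w' w'' v v' v'' u u' u''

namespace Pool.Agent.MUE79

open CategoryTheory CategoryTheory.Limits CategoryTheory.Abelian

section ind

variable {C : Type u} [Category.{v} C] [Abelian C] [HasExt.{w} C]

theorem comp_zsmul {X Y Z : C} {a b c : ℕ} (α : Ext.{w} X Y a) (z : ℤ) (β : Ext.{w} Y Z b)
    (h : a + b = c) : α.comp (z • β) h = z • α.comp β h :=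
  map_zsmul (α.precomp Z h) z β

theorem zsmul_comp {X Y Z : C} {a b c : ℕ} (α : Ext.{w} X Y a) (z : ℤ) (β : Ext.{w} Y Z b)
    (h : a + b = c) : (z • α).comp β h = z • α.comp β h :=
  map_zsmul (β.postcomp X h) z α

/-- every class of positive degree is the composite of the class of a short exact sequence (with
projective middle term) and a class of smaller degree -/
theorem exists_fac [EnoughProjectives C] {X Y : C} {n : ℕ} (α : Ext.{w} X Y (n + 1)) :
    ∃ (K P : C) (_ : Projective P) (i : K ⟶ P) (p : P ⟶ X) (w : i ≫ p = 0)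
      (hS : (ShortComplex.mk i p w).ShortExact) (β : Ext.{w} K Y n),
      hS.extClass.comp β (add_comm 1 n) = α := by
  have hS : (ShortComplex.mk (kernel.ι (Projective.π X)) (Projective.π X)
      (kernel.condition _)).ShortExact :=
    { exact := ShortComplex.exact_of_f_is_kernel _ (kernelIsKernel (Projective.π X)) }
  obtain ⟨β, hβ⟩ := Ext.contravariant_sequence_exact₃ hS Y α
    (Ext.eq_zero_of_projective (P := Projective.over X) _) (add_comm 1 n)
  exact ⟨_, Projective.over X, inferInstance, _, _, _, hS, β, hβ⟩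

/-- induction principle -/
theorem ext_ind [EnoughProjectives C] {motive : ∀ (X Y : C) (n : ℕ), Ext.{w} X Y n → Prop}
    (h0 : ∀ (X Y : C) (f : X ⟶ Y), motive X Y 0 (Ext.mk₀ f))
    (h1 : ∀ (S : ShortComplex C) (hS : S.ShortExact), motive S.X₃ S.X₁ 1 hS.extClass)
    (hc : ∀ (X Y Z : C) (a b c : ℕ) (h : a + b = c) (α : Ext.{w} X Y a) (β : Ext.{w} Y Z b),
      motive X Y a α → motive Y Z b β → motive X Z c (α.comp β h)) (X Y : C) (n : ℕ)
    (α : Ext.{w} X Y n) : motive X Y n α := by
  induction n generalizing X Y with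
  | zero =>
    obtain ⟨f, rfl⟩ := (Ext.mk₀_bijective X Y).2 α
    exact h0 X Y f
  | succ n ih =>
    obtain ⟨K, P, _, i, p, w, hS, β, rfl⟩ := exists_fac α
    exact hc _ _ _ _ _ _ _ _ _ (h1 _ hS) (ih _ _ β)

end ind

section nat

variable {C : Type u} [Category.{v} C] [Abelian C] [HasExt.{w} C] [EnoughProjectives C]
  {D : Type u'} [Category.{v'} D] [Abelian D] [HasExt.{w'} D]
  {E : Type u''} [Category.{v''} E] [Abelian E] [HasExt.{w''} E]

/-- naturality of `mapExactFunctor` in the functor -/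
theorem map_nat {F G : C ⥤ D} [F.Additive] [PreservesFiniteLimits F] [PreservesFiniteColimits F]
    [G.Additive] [PreservesFiniteLimits G] [PreservesFiniteColimits G] (τ : F ⟶ G) {X Y : C}
    {n : ℕ} (α : Ext.{w} X Y n) :
    (α.mapExactFunctor F : Ext.{w'} _ _ n).comp (Ext.mk₀ (τ.app Y)) (add_zero n) =
      (Ext.mk₀ (τ.app X)).comp (α.mapExactFunctor G) (zero_add n) := by
  refine ext_ind (motive := fun X Y n α =>
    (α.mapExactFunctor F : Ext.{w'} _ _ n).comp (Ext.mk₀ (τ.app Y)) (add_zero n) =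
      (Ext.mk₀ (τ.app X)).comp (α.mapExactFunctor G) (zero_add n)) ?_ ?_ ?_ X Y n α
  · intro X Y f
    rw [Ext.mapExactFunctor_mk₀, Ext.mapExactFunctor_mk₀, Ext.mk₀_comp_mk₀, Ext.mk₀_comp_mk₀,
      τ.naturality]
  · intro S hS
    rw [Ext.mapExactFunctor_extClass, Ext.mapExactFunctor_extClass]
    exact ShortComplex.ShortExact.extClass_naturality (hS.map_of_exact F) (hS.map_of_exact G)
      (S.mapNatTrans τ)
  · intro X Y Z a b c h α β hα hβ
    rw [Ext.mapExactFunctor_comp, Ext.mapExactFunctor_comp,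
      Ext.comp_assoc (a₁₂ := c) (a₂₃ := b) _ _ _ h (add_zero b) (by omega), hβ,
      ← Ext.comp_assoc (a₁₂ := a) (a₂₃ := b) _ _ _ (add_zero a) (zero_add b) (by omega), hα,
      Ext.comp_assoc (a₁₂ := a) (a₂₃ := c) _ _ _ (zero_add a) h (by omega)]

theorem map_id {X Y : C} {n : ℕ} (α : Ext.{w} X Y n) :
    (α.mapExactFunctor (𝟭 C) : Ext.{w} X Y n) = α := by
  refine ext_ind (motive := fun X Y n α =>
    (α.mapExactFunctor (𝟭 C) : Ext.{w} X Y n) = α) ?_ ?_ ?_ X Y n α
  · intro X Y f
    rw [Ext.mapExactFunctor_mk₀]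
    rfl
  · intro S hS
    rw [Ext.mapExactFunctor_extClass]
    rfl
  · intro X Y Z a b c h α β hα hβ
    rw [Ext.mapExactFunctor_comp]
    exact congrArg₂ (fun x y => Ext.comp x y h) hα hβ

theorem map_comp (F : C ⥤ D) [F.Additive] [PreservesFiniteLimits F] [PreservesFiniteColimits F]
    (G : D ⥤ E) [G.Additive] [PreservesFiniteLimits G] [PreservesFiniteColimits G] {X Y : C}
    {n : ℕ} (α : Ext.{w} X Y n) :
    (α.mapExactFunctor (F ⋙ G) : Ext.{w''} (G.obj (F.obj X)) (G.obj (F.obj Y)) n) =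
      ((α.mapExactFunctor F : Ext.{w'} _ _ n).mapExactFunctor G) := by
  refine ext_ind (motive := fun X Y n α =>
    (α.mapExactFunctor (F ⋙ G) : Ext.{w''} (G.obj (F.obj X)) (G.obj (F.obj Y)) n) =
      ((α.mapExactFunctor F : Ext.{w'} _ _ n).mapExactFunctor G)) ?_ ?_ ?_ X Y n α
  · intro X Y f
    rw [Ext.mapExactFunctor_mk₀, Ext.mapExactFunctor_mk₀, Ext.mapExactFunctor_mk₀]
    rfl
  · intro S hS
    exact (Ext.mapExactFunctor_extClass (F ⋙ G) hS).trans
      ((Ext.mapExactFunctor_extClass G (hS.map_of_exact F)).symm.trans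
        (congrArg (fun x => Ext.mapExactFunctor G x) (Ext.mapExactFunctor_extClass F hS).symm))
  · intro X Y Z a b c h α β hα hβ
    rw [Ext.mapExactFunctor_comp, Ext.mapExactFunctor_comp, Ext.mapExactFunctor_comp]
    exact congrArg₂ (fun x y => Ext.comp x y h) hα hβ

end nat

end Pool.Agent.MUE79
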