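import Mathlib

/-!
# The 3 x 3 lemma in `Ext²` and the interchange law (MP_388894)
-/

set_option autoImplicit false

universe w v u

namespace Pool.Agent.MUE79

open CategoryTheory CategoryTheory.Limits CategoryTheory.Abelian

section threebythree

variable {C : Type u} [Category.{v} C] [Abelian C] [HasExt.{w} C]

/-- the 3 x 3 lemma: the two composites of the connecting classes are opposite -/
theorem three_by_three {T₁ T₂ T₃ : ShortComplex C} (f : T₁ ⟶ T₂) (g : T₂ ⟶ T₃)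
    (z1 : f.τ₁ ≫ g.τ₁ = 0) (z2 : f.τ₂ ≫ g.τ₂ = 0) (z3 : f.τ₃ ≫ g.τ₃ = 0)
    (r1 : T₁.ShortExact) (r2 : T₂.ShortExact) (r3 : T₃.ShortExact)
    (c1 : (ShortComplex.mk f.τ₁ g.τ₁ z1).ShortExact)
    (c2 : (ShortComplex.mk f.τ₂ g.τ₂ z2).ShortExact)
    (c3 : (ShortComplex.mk f.τ₃ g.τ₃ z3).ShortExact) :
    r3.extClass.comp c1.extClass (rfl : 1 + 1 = 2) +
      c3.extClass.comp r1.extClass (rfl : 1 + 1 = 2) = (0 : Ext.{w} T₃.X₃ T₁.X₁ 2) := by
  have e2 : Epi g.τ₂ := c2.epi_g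
  have e1 : Epi g.τ₁ := c1.epi_g
  have e3 : Epi g.τ₃ := c3.epi_g
  have m2 : Mono f.τ₂ := c2.mono_f
  have m1 : Mono f.τ₁ := c1.mono_f
  have m3 : Mono f.τ₃ := c3.mono_f
  have := r1.mono_f
  have := r1.epi_g
  have := r2.mono_f
  have := r2.epi_g
  have := r3.mono_f
  have := r3.epi_g
  -- the kernel of the total projection
  let p : T₂.X₂ ⟶ T₃.X₃ := g.τ₂ ≫ T₃.g
  have hp : p = T₂.g ≫ g.τ₃ := g.comm₂₃
  have : Epi p := epi_comp _ _
  let E : ShortComplex C := ShortComplex.mk (kernel.ι p) p (kernel.condition p)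
  have hE : E.ShortExact :=
    { exact := ShortComplex.exact_of_f_is_kernel _ (kernelIsKernel p) }
  -- the two projections
  have hk1 : (kernel.ι p ≫ g.τ₂) ≫ T₃.g = 0 := by
    rw [Category.assoc]
    exact kernel.condition p
  have hk3 : (kernel.ι p ≫ T₂.g) ≫ g.τ₃ = 0 := by
    rw [Category.assoc, ← hp]
    exact kernel.condition p
  let k1 : kernel p ⟶ T₃.X₁ := r3.exact.lift (kernel.ι p ≫ g.τ₂) hk1
  have ek1 : k1 ≫ T₃.f = kernel.ι p ≫ g.τ₂ := r3.exact.lift_f _ _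
  let k3 : kernel p ⟶ T₁.X₃ := c3.exact.lift (kernel.ι p ≫ T₂.g) hk3
  have ek3 : k3 ≫ f.τ₃ = kernel.ι p ≫ T₂.g := c3.exact.lift_f _ _
  -- the two inclusions
  have hi1 : T₂.f ≫ p = 0 := by
    rw [hp, ← Category.assoc, T₂.zero, zero_comp]
  have hi3 : f.τ₂ ≫ p = 0 := by
    show f.τ₂ ≫ (g.τ₂ ≫ T₃.g) = 0
    rw [← Category.assoc, z2, zero_comp]
  let i1 : T₂.X₁ ⟶ kernel p := kernel.lift p T₂.f hi1
  let i3 : T₁.X₂ ⟶ kernel p := kernel.lift p f.τ₂ hi3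
  have ei1 : i1 ≫ kernel.ι p = T₂.f := kernel.lift_ι _ _ _
  have ei3 : i3 ≫ kernel.ι p = f.τ₂ := kernel.lift_ι _ _ _
  have h11 : i1 ≫ k1 = g.τ₁ := by
    rw [← cancel_mono T₃.f, Category.assoc, ek1, ← Category.assoc, ei1, g.comm₁₂]
  have h13 : i1 ≫ k3 = 0 := by
    rw [← cancel_mono f.τ₃, Category.assoc, ek3, ← Category.assoc, ei1, T₂.zero, zero_comp]
  have h31 : i3 ≫ k1 = 0 := by
    rw [← cancel_mono T₃.f, Category.assoc, ek1, ← Category.assoc, ei3, z2, zero_comp]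
  have h33 : i3 ≫ k3 = T₁.g := by
    rw [← cancel_mono f.τ₃, Category.assoc, ek3, ← Category.assoc, ei3, f.comm₂₃]
  -- the second short exact sequence
  let j : T₁.X₁ ⟶ kernel p := T₁.f ≫ i3
  have hj : j = f.τ₁ ≫ i1 := by
    rw [← cancel_mono (kernel.ι p)]
    show (T₁.f ≫ i3) ≫ kernel.ι p = _
    rw [Category.assoc, Category.assoc, ei1, ei3, f.comm₁₂]
  have hjk1 : j ≫ k1 = 0 := by
    show (T₁.f ≫ i3) ≫ k1 = 0
    rw [Category.assoc, h31, comp_zero]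
  have hjk3 : j ≫ k3 = 0 := by
    rw [hj, Category.assoc, h13, comp_zero]
  let G : ShortComplex C := ShortComplex.mk j (biprod.lift k1 k3) (by
    ext
    · simpa using hjk1
    · simpa using hjk3)
  have hGepi : Epi G.g := by
    have : Epi (biprod.map g.τ₁ T₁.g) := inferInstance
    have h : biprod.desc i1 i3 ≫ biprod.lift k1 k3 = biprod.map g.τ₁ T₁.g := by
      ext <;> simp [h11, h13, h31, h33]
    exact epi_of_epi_fac h
  have hjm : Mono j := by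
    have : Mono (T₁.f ≫ f.τ₂) := mono_comp _ _
    have h : j ≫ kernel.ι p = T₁.f ≫ f.τ₂ := by
      show (T₁.f ≫ i3) ≫ kernel.ι p = _
      rw [Category.assoc, ei3]
    exact mono_of_mono_fac h
  have hGex : G.Exact := by
    refine ShortComplex.exact_of_f_is_kernel _ ?_
    refine KernelFork.IsLimit.ofι' _ _ fun {W} a hg => ?_
    have hg1 : a ≫ k1 = 0 := by
      have h5 : (a ≫ biprod.lift k1 k3) ≫ biprod.fst = 0 := by
        rw [show a ≫ biprod.lift k1 k3 = 0 from hg, zero_comp]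
      simpa using h5
    have hg3 : a ≫ k3 = 0 := by
      have h5 : (a ≫ biprod.lift k1 k3) ≫ biprod.snd = 0 := by
        rw [show a ≫ biprod.lift k1 k3 = 0 from hg, zero_comp]
      simpa using h5
    have q1 : (a ≫ kernel.ι p) ≫ g.τ₂ = 0 := by
      rw [Category.assoc, ← ek1, ← Category.assoc, hg1, zero_comp]
    have q3 : (a ≫ kernel.ι p) ≫ T₂.g = 0 := by
      rw [Category.assoc, ← ek3, ← Category.assoc, hg3, zero_comp]
    let h : W ⟶ T₁.X₂ := c2.exact.lift (a ≫ kernel.ι p) q1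
    have eh : h ≫ f.τ₂ = a ≫ kernel.ι p := c2.exact.lift_f _ _
    have hz : h ≫ T₁.g = 0 := by
      rw [← cancel_mono f.τ₃, Category.assoc, ← f.comm₂₃, ← Category.assoc, eh, q3, zero_comp]
    refine ⟨r1.exact.lift h hz, ?_⟩
    rw [← cancel_mono (kernel.ι p)]
    show (r1.exact.lift h hz ≫ (T₁.f ≫ i3)) ≫ kernel.ι p = _
    rw [Category.assoc, Category.assoc, ei3, ← Category.assoc, r1.exact.lift_f, eh]
  have hG : G.ShortExact := { exact := hGex, mono_f := hjm, epi_g := hGepi }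
  -- naturality
  let φ1 : E ⟶ T₃ :=
    { τ₁ := k1, τ₂ := g.τ₂, τ₃ := 𝟙 _, comm₁₂ := ek1, comm₂₃ := (Category.comp_id p).symm }
  let φ3 : E ⟶ ShortComplex.mk f.τ₃ g.τ₃ z3 :=
    { τ₁ := k3, τ₂ := T₂.g, τ₃ := 𝟙 _, comm₁₂ := ek3,
      comm₂₃ := by
        show T₂.g ≫ g.τ₃ = p ≫ 𝟙 _
        rw [Category.comp_id, hp] }
  let ψ1 : ShortComplex.mk f.τ₁ g.τ₁ z1 ⟶ G :=
    { τ₁ := 𝟙 _, τ₂ := i1, τ₃ := biprod.inl,
      comm₁₂ := by
        show 𝟙 _ ≫ j = f.τ₁ ≫ i1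
        rw [Category.id_comp, hj]
      comm₂₃ := by
        show i1 ≫ biprod.lift k1 k3 = g.τ₁ ≫ biprod.inl
        ext <;> simp [h11, h13] }
  let ψ3 : T₁ ⟶ G :=
    { τ₁ := 𝟙 _, τ₂ := i3, τ₃ := biprod.inr,
      comm₁₂ := by
        show 𝟙 _ ≫ j = T₁.f ≫ i3
        rw [Category.id_comp]
      comm₂₃ := by
        show i3 ≫ biprod.lift k1 k3 = T₁.g ≫ biprod.inr
        ext <;> simp [h31, h33] }
  have n1 := ShortComplex.ShortExact.extClass_naturality hE r3 φ1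
  have n3 := ShortComplex.ShortExact.extClass_naturality hE c3 φ3
  have m1' := ShortComplex.ShortExact.extClass_naturality c1 hG ψ1
  have m3' := ShortComplex.ShortExact.extClass_naturality r1 hG ψ3
  have n1' : r3.extClass = hE.extClass.comp (Ext.mk₀ k1) (add_zero 1) := by
    rw [show (Ext.mk₀ k1) = Ext.mk₀ φ1.τ₁ from rfl, n1]
    exact (Ext.mk₀_id_comp _).symm
  have n3' : c3.extClass = hE.extClass.comp (Ext.mk₀ k3) (add_zero 1) := by
    rw [show (Ext.mk₀ k3) = Ext.mk₀ φ3.τ₁ from rfl, n3]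
    exact (Ext.mk₀_id_comp _).symm
  have m1'' : c1.extClass = (Ext.mk₀ (biprod.inl : T₃.X₁ ⟶ T₃.X₁ ⊞ T₁.X₃)).comp hG.extClass
      (zero_add 1) := (Ext.comp_mk₀_id _).symm.trans m1'
  have m3'' : r1.extClass = (Ext.mk₀ (biprod.inr : T₁.X₃ ⟶ T₃.X₁ ⊞ T₁.X₃)).comp hG.extClass
      (zero_add 1) := (Ext.comp_mk₀_id _).symm.trans m3'
  have key : (Ext.mk₀ (biprod.lift k1 k3)).comp hG.extClass (zero_add 1) = 0 :=
    ShortComplex.ShortExact.comp_extClass hG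
  have hlift : biprod.lift k1 k3 = k1 ≫ biprod.inl + k3 ≫ biprod.inr := by
    ext <;> simp
  rw [n1', n3', m1'', m3'']
  rw [Ext.comp_assoc (a₁₂ := 1) (a₂₃ := 1) _ _ _ (by omega) (by omega) (by omega),
    Ext.comp_assoc (a₁₂ := 1) (a₂₃ := 1) _ _ _ (by omega) (by omega) (by omega),
    Ext.mk₀_comp_mk₀_assoc, Ext.mk₀_comp_mk₀_assoc, ← Ext.comp_add, ← Ext.add_comp,
    ← Ext.mk₀_add, ← hlift, key, Ext.comp_zero]

end threebythree

end Pool.Agent.MUE79
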