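import Pool.Agent.MUE79.Ind

/-!
# `Ext` and adjunctions between exact functors (MP_388894)
-/

set_option autoImplicit false

universe w w' v v' u u'

namespace Pool.Agent.MUE79

open CategoryTheory CategoryTheory.Limits CategoryTheory.Abelian

set_option linter.unusedSectionVars false

section adj

variable {C : Type u} [Category.{v} C] [Abelian C] [HasExt.{w} C] [EnoughProjectives C]
  {D : Type u'} [Category.{v'} D] [Abelian D] [HasExt.{w'} D] [EnoughProjectives D]
  {F : C ⥤ D} [F.Additive] [PreservesFiniteLimits F] [PreservesFiniteColimits F]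
  {G : D ⥤ C} [G.Additive] [PreservesFiniteLimits G] [PreservesFiniteColimits G]
  (adj : F ⊣ G)

/-- `Ext (F X) Y → Ext X (G Y)` -/
noncomputable def adjTo {X : C} {Y : D} {n : ℕ} (α : Ext.{w'} (F.obj X) Y n) :
    Ext.{w} X (G.obj Y) n :=
  (Ext.mk₀ (adj.unit.app X)).comp (α.mapExactFunctor G) (zero_add n)

/-- `Ext X (G Y) → Ext (F X) Y` -/
noncomputable def adjFrom {X : C} {Y : D} {n : ℕ} (β : Ext.{w} X (G.obj Y) n) :
    Ext.{w'} (F.obj X) Y n :=
  (β.mapExactFunctor F).comp (Ext.mk₀ (adj.counit.app Y)) (add_zero n)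

theorem adjFrom_adjTo {X : C} {Y : D} {n : ℕ} (α : Ext.{w'} (F.obj X) Y n) :
    adjFrom adj (adjTo adj α) = α := by
  unfold adjFrom adjTo
  rw [Ext.mapExactFunctor_comp, Ext.mapExactFunctor_mk₀,
    Ext.comp_assoc (a₁₂ := n) (a₂₃ := n) _ _ _ (zero_add n) (add_zero n) (by omega)]
  have h1 : ((α.mapExactFunctor G : Ext.{w} _ _ n).mapExactFunctor F :
      Ext.{w'} (F.obj (G.obj (F.obj X))) (F.obj (G.obj Y)) n).comp
        (Ext.mk₀ (adj.counit.app Y)) (add_zero n) =
      (Ext.mk₀ (adj.counit.app (F.obj X))).comp α (zero_add n) := by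
    have h2 := map_nat (F := G ⋙ F) (G := 𝟭 D) adj.counit α
    rw [map_id] at h2
    rw [← map_comp]
    exact h2
  rw [h1, Ext.mk₀_comp_mk₀_assoc, adj.left_triangle_components, Ext.mk₀_id_comp]

theorem adjTo_adjFrom {X : C} {Y : D} {n : ℕ} (β : Ext.{w} X (G.obj Y) n) :
    adjTo adj (adjFrom adj β) = β := by
  unfold adjFrom adjTo
  rw [Ext.mapExactFunctor_comp, Ext.mapExactFunctor_mk₀,
    ← Ext.comp_assoc (a₁₂ := n) (a₂₃ := n) _ _ _ (zero_add n) (add_zero n) (by omega)]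
  have h1 : (Ext.mk₀ (adj.unit.app X)).comp ((β.mapExactFunctor F :
      Ext.{w'} _ _ n).mapExactFunctor G :
        Ext.{w} (G.obj (F.obj X)) (G.obj (F.obj (G.obj Y))) n) (zero_add n) =
      β.comp (Ext.mk₀ (adj.unit.app (G.obj Y))) (add_zero n) := by
    have h2 := map_nat (F := 𝟭 C) (G := F ⋙ G) adj.unit β
    rw [map_id] at h2
    rw [← map_comp]
    exact h2.symm
  rw [h1, Ext.comp_assoc_of_second_deg_zero, Ext.mk₀_comp_mk₀, adj.right_triangle_components,
    Ext.comp_mk₀_id]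

/-- the adjunction isomorphism on `Ext` -/
noncomputable def adjExt (X : C) (Y : D) (n : ℕ) :
    Ext.{w'} (F.obj X) Y n ≃+ Ext.{w} X (G.obj Y) n where
  toFun := adjTo adj
  invFun := adjFrom adj
  left_inv := adjFrom_adjTo adj
  right_inv := adjTo_adjFrom adj
  map_add' α β := by
    unfold adjTo
    rw [Ext.mapExactFunctor_add, Ext.comp_add]

theorem adjTo_comp {X : C} {Y Y' : D} {a b c : ℕ} (α : Ext.{w'} (F.obj X) Y a)
    (β : Ext.{w'} Y Y' b) (h : a + b = c) :
    adjTo adj (α.comp β h) = (adjTo adj α).comp (β.mapExactFunctor G) h := by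
  unfold adjTo
  rw [Ext.mapExactFunctor_comp,
    Ext.comp_assoc (a₁₂ := a) (a₂₃ := c) _ _ _ (zero_add a) h (by omega)]

theorem adjTo_map_comp {X X' : C} {Y : D} {a b c : ℕ} (γ : Ext.{w} X X' a)
    (α : Ext.{w'} (F.obj X') Y b) (h : a + b = c) :
    adjTo adj ((γ.mapExactFunctor F).comp α h) = γ.comp (adjTo adj α) h := by
  unfold adjTo
  rw [Ext.mapExactFunctor_comp,
    ← Ext.comp_assoc (a₁₂ := a) (a₂₃ := c) _ _ _ (zero_add a) h (by omega)]
  have h1 : (Ext.mk₀ (adj.unit.app X)).comp ((γ.mapExactFunctor F :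
      Ext.{w'} _ _ a).mapExactFunctor G :
        Ext.{w} (G.obj (F.obj X)) (G.obj (F.obj X')) a) (zero_add a) =
      γ.comp (Ext.mk₀ (adj.unit.app X')) (add_zero a) := by
    have h2 := map_nat (F := 𝟭 C) (G := F ⋙ G) adj.unit γ
    rw [map_id] at h2
    rw [← map_comp]
    exact h2.symm
  rw [h1, Ext.comp_assoc (a₁₂ := a) (a₂₃ := b) _ _ _ (add_zero a) (zero_add b) (by omega)]

end adj

end Pool.Agent.MUE79
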