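import Pool.Agent.MUE79.Three
import Pool.Agent.MUE79.Ind

/-!
# The interchange law for `Ext` in a monoidal abelian category (MP_388894)
-/

set_option autoImplicit false

universe w v u

namespace Pool.Agent.MUE79

open CategoryTheory CategoryTheory.Limits CategoryTheory.Abelian MonoidalCategory

set_option linter.unusedSectionVars false

section inter

variable {C : Type u} [Category.{v} C] [Abelian C] [HasExt.{w} C] [MonoidalCategory C]
  [MonoidalPreadditive C]
  [∀ X : C, PreservesFiniteLimits (tensorLeft X)] [∀ X : C, PreservesFiniteColimits (tensorLeft X)]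
  [∀ X : C, PreservesFiniteLimits (tensorRight X)]
  [∀ X : C, PreservesFiniteColimits (tensorRight X)]

/-- `X ⊗ b` -/
noncomputable abbrev lw (X : C) {Y B : C} {q : ℕ} (b : Ext.{w} Y B q) :
    Ext.{w} (X ⊗ Y) (X ⊗ B) q :=
  b.mapExactFunctor (tensorLeft X)

/-- `a ⊗ Y` -/
noncomputable abbrev rw' {X A : C} {p : ℕ} (a : Ext.{w} X A p) (Y : C) :
    Ext.{w} (X ⊗ Y) (A ⊗ Y) p :=
  a.mapExactFunctor (tensorRight Y)

/-- the sign for two short exact sequences -/
theorem inter_ext (S T : ShortComplex C) (hS : S.ShortExact) (hT : T.ShortExact) :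
    (lw S.X₃ hT.extClass).comp (rw' hS.extClass T.X₁) (rfl : 1 + 1 = 2) +
      (rw' hS.extClass T.X₃).comp (lw S.X₁ hT.extClass) (rfl : 1 + 1 = 2) = 0 := by
  have z : ∀ Y : C, S.f ▷ Y ≫ S.g ▷ Y = 0 := fun Y => by
    rw [← comp_whiskerRight, S.zero]
    exact (tensorRight Y).map_zero _ _
  let f : T.map (tensorLeft S.X₁) ⟶ T.map (tensorLeft S.X₂) :=
    T.mapNatTrans ((curriedTensor C).map S.f)
  let g : T.map (tensorLeft S.X₂) ⟶ T.map (tensorLeft S.X₃) :=
    T.mapNatTrans ((curriedTensor C).map S.g)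
  have key := three_by_three f g (z T.X₁) (z T.X₂) (z T.X₃)
    (hT.map_of_exact (tensorLeft S.X₁)) (hT.map_of_exact (tensorLeft S.X₂))
    (hT.map_of_exact (tensorLeft S.X₃)) (hS.map_of_exact (tensorRight T.X₁))
    (hS.map_of_exact (tensorRight T.X₂)) (hS.map_of_exact (tensorRight T.X₃))
  have e1 := Ext.mapExactFunctor_extClass (tensorLeft S.X₃) hT
  have e2 := Ext.mapExactFunctor_extClass (tensorRight T.X₁) hS
  have e3 := Ext.mapExactFunctor_extClass (tensorRight T.X₃) hS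
  have e4 := Ext.mapExactFunctor_extClass (tensorLeft S.X₁) hT
  have e5 : (lw S.X₃ hT.extClass).comp (rw' hS.extClass T.X₁) (rfl : 1 + 1 = 2) =
      (hT.map_of_exact (tensorLeft S.X₃)).extClass.comp
        (hS.map_of_exact (tensorRight T.X₁)).extClass (rfl : 1 + 1 = 2) :=
    congrArg₂ (fun x y => Ext.comp x y (rfl : 1 + 1 = 2)) e1 e2
  have e6 : (rw' hS.extClass T.X₃).comp (lw S.X₁ hT.extClass) (rfl : 1 + 1 = 2) =
      (hS.map_of_exact (tensorRight T.X₃)).extClass.comp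
        (hT.map_of_exact (tensorLeft S.X₁)).extClass (rfl : 1 + 1 = 2) :=
    congrArg₂ (fun x y => Ext.comp x y (rfl : 1 + 1 = 2)) e3 e4
  rw [e5, e6]
  exact key

variable [EnoughProjectives C]

/-- degree `0` in the first variable -/
theorem inter_left {X A Y B : C} {q : ℕ} (f : X ⟶ A) (b : Ext.{w} Y B q) :
    (lw X b).comp (Ext.mk₀ (f ▷ B)) (add_zero q) =
      (Ext.mk₀ (f ▷ Y)).comp (lw A b) (zero_add q) :=
  map_nat (F := tensorLeft X) (G := tensorLeft A) ((curriedTensor C).map f) b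

/-- degree `0` in the second variable -/
theorem inter_right {X A Y B : C} {p : ℕ} (a : Ext.{w} X A p) (g : Y ⟶ B) :
    (rw' a Y).comp (Ext.mk₀ (A ◁ g)) (add_zero p) =
      (Ext.mk₀ (X ◁ g)).comp (rw' a B) (zero_add p) :=
  map_nat (F := tensorRight Y) (G := tensorRight B) ((curriedTensor C).flip.map g) a

/-- the interchange law -/
theorem inter {X A Y B : C} {p q n : ℕ} (a : Ext.{w} X A p) (b : Ext.{w} Y B q)
    (h : q + p = n) (h' : p + q = n) :
    (lw X b).comp (rw' a B) h = ((-1 : ℤ) ^ (p * q)) • (rw' a Y).comp (lw A b) h' := by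
  -- motive in `b`
  refine ext_ind (motive := fun X A p a => ∀ (Y B : C) (q n : ℕ) (b : Ext.{w} Y B q)
    (h : q + p = n) (h' : p + q = n),
    (lw X b).comp (rw' a B) h = ((-1 : ℤ) ^ (p * q)) • (rw' a Y).comp (lw A b) h')
    ?_ ?_ ?_ X A p a Y B q n b h h'
  · intro X A f Y B q n b h h'
    obtain rfl : n = q := by omega
    show (lw X b).comp (rw' (Ext.mk₀ f) B) h = _
    rw [show (rw' (Ext.mk₀ f) B : Ext.{w} (X ⊗ B) (A ⊗ B) 0) = Ext.mk₀ (f ▷ B) from
        Ext.mapExactFunctor_mk₀ (tensorRight B) f,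
      show (rw' (Ext.mk₀ f) Y : Ext.{w} (X ⊗ Y) (A ⊗ Y) 0) = Ext.mk₀ (f ▷ Y) from
        Ext.mapExactFunctor_mk₀ (tensorRight Y) f, inter_left, zero_mul, pow_zero, one_smul]
  · intro S hS Y B q n b h h'
    refine ext_ind (motive := fun Y B q b => ∀ (n : ℕ) (h : q + 1 = n) (h' : 1 + q = n),
      (lw S.X₃ b).comp (rw' hS.extClass B) h =
        ((-1 : ℤ) ^ (1 * q)) • (rw' hS.extClass Y).comp (lw S.X₁ b) h')
      ?_ ?_ ?_ Y B q b n h h'
    · intro Y B g n h h'
      obtain rfl : n = 1 := by omega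
      rw [show (lw S.X₃ (Ext.mk₀ g) : Ext.{w} (S.X₃ ⊗ Y) (S.X₃ ⊗ B) 0) = Ext.mk₀ (S.X₃ ◁ g) from
          Ext.mapExactFunctor_mk₀ (tensorLeft S.X₃) g,
        show (lw S.X₁ (Ext.mk₀ g) : Ext.{w} (S.X₁ ⊗ Y) (S.X₁ ⊗ B) 0) = Ext.mk₀ (S.X₁ ◁ g) from
          Ext.mapExactFunctor_mk₀ (tensorLeft S.X₁) g, mul_zero, pow_zero, one_smul]
      exact (inter_right hS.extClass g).symm
    · intro T hT n h h'
      obtain rfl : n = 2 := by omega
      rw [mul_one, pow_one, neg_smul, one_smul]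
      exact eq_neg_of_add_eq_zero_left (inter_ext S T hS hT)
    · intro Y Z B a' b' c' hc β γ hβ hγ n h h'
      show (lw S.X₃ (β.comp γ hc)).comp (rw' hS.extClass B) h = _
      rw [show (lw S.X₃ (β.comp γ hc) : Ext.{w} (S.X₃ ⊗ Y) (S.X₃ ⊗ B) c') =
          (lw S.X₃ β).comp (lw S.X₃ γ) hc from Ext.mapExactFunctor_comp (tensorLeft S.X₃) β γ hc,
        show (lw S.X₁ (β.comp γ hc) : Ext.{w} (S.X₁ ⊗ Y) (S.X₁ ⊗ B) c') =
          (lw S.X₁ β).comp (lw S.X₁ γ) hc from Ext.mapExactFunctor_comp (tensorLeft S.X₁) β γ hc]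
      rw [Ext.comp_assoc (a₁₂ := c') (a₂₃ := b' + 1) _ _ _ hc rfl (by omega),
        hγ (b' + 1) rfl (by omega), comp_zsmul,
        ← Ext.comp_assoc (a₁₂ := a' + 1) (a₂₃ := b' + 1) _ _ _ rfl (by omega) (by omega),
        hβ (a' + 1) rfl (by omega), zsmul_comp, smul_smul,
        Ext.comp_assoc (a₁₂ := a' + 1) (a₂₃ := c') _ _ _ (by omega) hc (by omega), ← pow_add]
      congr 2
      rw [← hc]
      ring
  · intro X Z A a' b' c' hc α β hα hβ Y B q n b h h'
    show (lw X b).comp (rw' (α.comp β hc) B) h = _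
    rw [show (rw' (α.comp β hc) B : Ext.{w} (X ⊗ B) (A ⊗ B) c') =
        (rw' α B).comp (rw' β B) hc from Ext.mapExactFunctor_comp (tensorRight B) α β hc,
      show (rw' (α.comp β hc) Y : Ext.{w} (X ⊗ Y) (A ⊗ Y) c') =
        (rw' α Y).comp (rw' β Y) hc from Ext.mapExactFunctor_comp (tensorRight Y) α β hc]
    rw [← Ext.comp_assoc (a₁₂ := q + a') (a₂₃ := c') _ _ _ rfl hc (by omega),
      hα Y B q (q + a') b rfl (by omega), zsmul_comp,
      Ext.comp_assoc (a₁₂ := q + a') (a₂₃ := q + b') _ _ _ (by omega) rfl (by omega),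
      hβ Y B q (q + b') b rfl (by omega), comp_zsmul, smul_smul,
      ← Ext.comp_assoc (a₁₂ := c') (a₂₃ := q + b') _ _ _ hc (by omega) (by omega), ← pow_add]
    congr 2
    rw [← hc]
    ring

end inter

end Pool.Agent.MUE79
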