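import Pool.Agent.MUG.Leib

/-!
# The swapped coevaluation and partial traces in a braided rigid category (MP_388894)
-/

open CategoryTheory MonoidalCategory

universe v u

namespace Pool.Agent.MUE79

section kap

variable {C : Type u} [Category.{v} C] [MonoidalCategory C] [BraidedCategory C]

/-- the swapped coevaluation -/
def kap (X D : C) [ExactPairing X D] : 𝟙_ C ⟶ D ⊗ X := η_ X D ≫ (β_ X D).hom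

/-- sliding a strand through `kap` -/
theorem slide_kap {X X' D' : C} [ExactPairing X' D']
    (h : (β_ X' X).hom ≫ (β_ X X').hom = 𝟙 (X' ⊗ X)) :
    X ◁ kap X' D' ⊗≫ (β_ X D').hom ▷ X' =
      𝟙 (X ⊗ 𝟙_ C) ⊗≫ kap X' D' ▷ X ⊗≫ D' ◁ (β_ X' X).hom ⊗≫ 𝟙 ((D' ⊗ X) ⊗ X') := by
  have h1 := BraidedCategory.braiding_naturality_right X (kap X' D')
  have h2 : (β_ X X').hom ≫ (β_ X' X).hom = 𝟙 (X ⊗ X') := by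
    have h3 : (β_ X X').hom = (β_ X' X).inv := by
      rw [← cancel_epi (β_ X' X).hom, h, Iso.hom_inv_id]
    rw [h3, Iso.inv_hom_id]
  have h4 : X ◁ kap X' D' ⊗≫ (β_ X D').hom ▷ X' ⊗≫ D' ◁ (β_ X X').hom ⊗≫
      𝟙 ((D' ⊗ X') ⊗ X) = 𝟙 (X ⊗ 𝟙_ C) ⊗≫ kap X' D' ▷ X := by
    have h5 : X ◁ kap X' D' ⊗≫ (β_ X D').hom ▷ X' ⊗≫ D' ◁ (β_ X X').hom ⊗≫
        𝟙 ((D' ⊗ X') ⊗ X) = X ◁ kap X' D' ≫ (β_ X (D' ⊗ X')).hom := by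
      rw [BraidedCategory.braiding_tensor_right_hom]
      monoidal
    rw [h5, h1, braiding_tensorUnit_right]
    monoidal
  calc X ◁ kap X' D' ⊗≫ (β_ X D').hom ▷ X'
      = X ◁ kap X' D' ⊗≫ (β_ X D').hom ▷ X' ⊗≫ D' ◁ (𝟙 (X ⊗ X')) ⊗≫
          𝟙 ((D' ⊗ X) ⊗ X') := by monoidal
    _ = (X ◁ kap X' D' ⊗≫ (β_ X D').hom ▷ X' ⊗≫ D' ◁ (β_ X X').hom ⊗≫
          𝟙 ((D' ⊗ X') ⊗ X)) ⊗≫ D' ◁ (β_ X' X).hom ⊗≫ 𝟙 ((D' ⊗ X) ⊗ X') := by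
        rw [← h2]
        monoidal
    _ = _ := by
        rw [h4]
        monoidal

/-- **K1**: the swapped coevaluation of a tensor product. -/
theorem kap_tensor {X X' D D' : C} [ExactPairing X D] [ExactPairing X' D']
    (h : (β_ X' X).hom ≫ (β_ X X').hom = 𝟙 (X' ⊗ X)) :
    kap (X ⊗ X') (D' ⊗ D) = kap X' D' ⊗≫ D' ◁ (kap X D ▷ X') ⊗≫ 𝟙 ((D' ⊗ D) ⊗ (X ⊗ X')) := by
  have h1 : (β_ (X ⊗ X') (D' ⊗ D)).hom = 𝟙 ((X ⊗ X') ⊗ (D' ⊗ D)) ⊗≫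
      X ◁ (β_ X' D').hom ▷ D ⊗≫ (X ⊗ D') ◁ (β_ X' D).hom ⊗≫ (β_ X D').hom ▷ (D ⊗ X') ⊗≫
        D' ◁ (β_ X D).hom ▷ X' ⊗≫ 𝟙 ((D' ⊗ D) ⊗ (X ⊗ X')) := by
    rw [BraidedCategory.braiding_tensor_left_hom, BraidedCategory.braiding_tensor_right_hom,
      BraidedCategory.braiding_tensor_right_hom]
    monoidal
  have h2 := BraidedCategory.braiding_naturality_right X' (η_ X D)
  have h3 : X' ◁ η_ X D ⊗≫ (β_ X' X).hom ▷ D ⊗≫ X ◁ (β_ X' D).hom ⊗≫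
      𝟙 ((X ⊗ D) ⊗ X') = 𝟙 (X' ⊗ 𝟙_ C) ⊗≫ η_ X D ▷ X' := by
    have h5 : X' ◁ η_ X D ⊗≫ (β_ X' X).hom ▷ D ⊗≫ X ◁ (β_ X' D).hom ⊗≫
        𝟙 ((X ⊗ D) ⊗ X') = X' ◁ η_ X D ≫ (β_ X' (X ⊗ D)).hom := by
      rw [BraidedCategory.braiding_tensor_right_hom]
      monoidal
    rw [h5, h2, braiding_tensorUnit_right]
    monoidal
  calc kap (X ⊗ X') (D' ⊗ D)
      = η_ X D ⊗≫ X ◁ (η_ X' D' ≫ (β_ X' D').hom) ▷ D ⊗≫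
          (X ⊗ D') ◁ (β_ X' D).hom ⊗≫ (β_ X D').hom ▷ (D ⊗ X') ⊗≫
            D' ◁ (β_ X D).hom ▷ X' ⊗≫ 𝟙 ((D' ⊗ D) ⊗ (X ⊗ X')) := by
        unfold kap
        rw [h1, ExactPairing.tensor_coevaluation]
        monoidal
    _ = η_ X D ⊗≫ (X ◁ kap X' D') ▷ D ⊗≫
          ((X ⊗ D') ◁ (β_ X' D).hom ≫ (β_ X D').hom ▷ (D ⊗ X')) ⊗≫
            D' ◁ (β_ X D).hom ▷ X' ⊗≫ 𝟙 ((D' ⊗ D) ⊗ (X ⊗ X')) := by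
        unfold kap
        monoidal
    _ = η_ X D ⊗≫ (X ◁ kap X' D' ⊗≫ (β_ X D').hom ▷ X') ▷ D ⊗≫
          (D' ⊗ X) ◁ (β_ X' D).hom ⊗≫ D' ◁ (β_ X D).hom ▷ X' ⊗≫
            𝟙 ((D' ⊗ D) ⊗ (X ⊗ X')) := by
        rw [whisker_exchange]
        monoidal
    _ = η_ X D ⊗≫ kap X' D' ▷ (X ⊗ D) ⊗≫
          D' ◁ ((β_ X' X).hom ▷ D ⊗≫ X ◁ (β_ X' D).hom ⊗≫ 𝟙 ((X ⊗ D) ⊗ X')) ⊗≫
            D' ◁ (β_ X D).hom ▷ X' ⊗≫ 𝟙 ((D' ⊗ D) ⊗ (X ⊗ X')) := by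
        rw [slide_kap h]
        monoidal
    _ = 𝟙 (𝟙_ C) ⊗≫ ((𝟙_ C) ◁ η_ X D ≫ kap X' D' ▷ (X ⊗ D)) ⊗≫
          D' ◁ ((β_ X' X).hom ▷ D ⊗≫ X ◁ (β_ X' D).hom ⊗≫ 𝟙 ((X ⊗ D) ⊗ X')) ⊗≫
            D' ◁ (β_ X D).hom ▷ X' ⊗≫ 𝟙 ((D' ⊗ D) ⊗ (X ⊗ X')) := by
        monoidal
    _ = kap X' D' ⊗≫ D' ◁ (X' ◁ η_ X D ⊗≫ (β_ X' X).hom ▷ D ⊗≫ X ◁ (β_ X' D).hom ⊗≫
          𝟙 ((X ⊗ D) ⊗ X')) ⊗≫ D' ◁ (β_ X D).hom ▷ X' ⊗≫ 𝟙 ((D' ⊗ D) ⊗ (X ⊗ X')) := by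
        rw [whisker_exchange]
        monoidal
    _ = kap X' D' ⊗≫ D' ◁ ((η_ X D ≫ (β_ X D).hom) ▷ X') ⊗≫
          𝟙 ((D' ⊗ D) ⊗ (X ⊗ X')) := by
        rw [h3]
        monoidal
    _ = _ := by
        rfl

end kap

end Pool.Agent.MUE79
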