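import Pool.Agent.MUE79.Inter

/-!
# Exactness of the tensor product in a rigid category; unitors and `Ext` (MP_388894)
-/

set_option autoImplicit false

universe w v u

namespace Pool.Agent.MUE79

open CategoryTheory CategoryTheory.Limits CategoryTheory.Abelian MonoidalCategory

section rigid

variable {C : Type u} [Category.{v} C] [MonoidalCategory C] [RigidCategory C]

instance tensorLeft_finLim (X : C) : PreservesFiniteLimits (tensorLeft X) := by
  have h := (tensorLeftAdjunction X (Xᘁ)).rightAdjoint_preservesLimits.{0, 0}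
  infer_instance

instance tensorLeft_finColim (X : C) : PreservesFiniteColimits (tensorLeft X) := by
  have h := (tensorLeftAdjunction (ᘁX) X).leftAdjoint_preservesColimits.{0, 0}
  infer_instance

instance tensorRight_finLim (X : C) : PreservesFiniteLimits (tensorRight X) := by
  have h := (tensorRightAdjunction (ᘁX) X).rightAdjoint_preservesLimits.{0, 0}
  infer_instance

instance tensorRight_finColim (X : C) : PreservesFiniteColimits (tensorRight X) := by
  have h := (tensorRightAdjunction X (Xᘁ)).leftAdjoint_preservesColimits.{0, 0}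
  infer_instance

end rigid

section units

variable {C : Type u} [Category.{v} C] [Abelian C] [HasExt.{w} C] [MonoidalCategory C]
  [MonoidalPreadditive C] [RigidCategory C] [EnoughProjectives C]

/-- `1 ⊗ b` is `b` -/
theorem lw_unit {Y B : C} {q : ℕ} (b : Ext.{w} Y B q) :
    (lw (𝟙_ C) b).comp (Ext.mk₀ (λ_ B).hom) (add_zero q) =
      (Ext.mk₀ (λ_ Y).hom).comp b (zero_add q) := by
  have h := map_nat (F := tensorLeft (𝟙_ C)) (G := 𝟭 C) (leftUnitorNatIso C).hom b
  rw [map_id] at h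
  exact h

/-- `a ⊗ 1` is `a` -/
theorem rw_unit {X A : C} {p : ℕ} (a : Ext.{w} X A p) :
    (rw' a (𝟙_ C)).comp (Ext.mk₀ (ρ_ A).hom) (add_zero p) =
      (Ext.mk₀ (ρ_ X).hom).comp a (zero_add p) := by
  have h := map_nat (F := tensorRight (𝟙_ C)) (G := 𝟭 C) (rightUnitorNatIso C).hom a
  rw [map_id] at h
  exact h

/-- `1 ⊗ b` in terms of `b` -/
theorem lw_unit' {Y B : C} {q : ℕ} (b : Ext.{w} Y B q) :
    lw (𝟙_ C) b = (Ext.mk₀ (λ_ Y).hom).comp (b.comp (Ext.mk₀ (λ_ B).inv) (add_zero q))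
      (zero_add q) := by
  rw [← Ext.comp_assoc (a₁₂ := q) (a₂₃ := q) _ _ _ (zero_add q) (add_zero q) (by omega),
    ← lw_unit, Ext.comp_assoc_of_second_deg_zero, Ext.mk₀_comp_mk₀, Iso.hom_inv_id,
    Ext.comp_mk₀_id]

/-- `a ⊗ 1` in terms of `a` -/
theorem rw_unit' {X A : C} {p : ℕ} (a : Ext.{w} X A p) :
    rw' a (𝟙_ C) = (Ext.mk₀ (ρ_ X).hom).comp (a.comp (Ext.mk₀ (ρ_ A).inv) (add_zero p))
      (zero_add p) := by
  rw [← Ext.comp_assoc (a₁₂ := p) (a₂₃ := p) _ _ _ (zero_add p) (add_zero p) (by omega),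
    ← rw_unit, Ext.comp_assoc_of_second_deg_zero, Ext.mk₀_comp_mk₀, Iso.hom_inv_id,
    Ext.comp_mk₀_id]

/-- the interchange law for classes from the unit: `(a ⊗ B) ∘ b = ± (A ⊗ b) ∘ a` -/
theorem inter_one {A B : C} {p q n : ℕ} (a : Ext.{w} (𝟙_ C) A p) (b : Ext.{w} (𝟙_ C) B q)
    (h : q + p = n) (h' : p + q = n) :
    (b.comp (Ext.mk₀ (λ_ B).inv) (add_zero q)).comp (rw' a B) h =
      ((-1 : ℤ) ^ (p * q)) •
        (a.comp (Ext.mk₀ (ρ_ A).inv) (add_zero p)).comp (lw A b) h' := by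
  have key := inter a b h h'
  rw [lw_unit', rw_unit', Ext.comp_assoc (a₁₂ := q) (a₂₃ := n) _ _ _ (zero_add q) h (by omega),
    Ext.comp_assoc (a₁₂ := p) (a₂₃ := n) _ _ _ (zero_add p) h' (by omega)] at key
  have key2 := congrArg (fun x => (Ext.mk₀ (λ_ (𝟙_ C)).inv).comp x (zero_add n)) key
  rw [comp_zsmul, ← unitors_equal, Ext.mk₀_comp_mk₀_assoc, Ext.mk₀_comp_mk₀_assoc,
    Iso.inv_hom_id, Ext.mk₀_id_comp, Ext.mk₀_id_comp] at key2
  exact key2

end units

end Pool.Agent.MUE79
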